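import Mathlib

/-!
# Shifted Legendre polynomials on `[0,1]`

`P i` is the shifted Legendre polynomial with `P i (1) = 1`, `e i = sqrt (2i+1) P i` is the
orthonormal system, `Vp` is integration from `0`, `J p` is the integral over `[0,1]`.
-/

open Polynomial Finset

namespace IS46

/-- shifted Legendre polynomial -/
noncomputable def P (i : ℕ) : ℂ[X] :=
  ∑ l ∈ range (i + 1), monomial l ((-1 : ℂ) ^ (i + l) * (i.choose l : ℂ) * ((i + l).choose l : ℂ))

theorem coeff_P (i l : ℕ) :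
    (P i).coeff l = (-1 : ℂ) ^ (i + l) * (i.choose l : ℂ) * ((i + l).choose l : ℂ) := by
  unfold P
  rw [finsetSum_coeff]
  simp only [coeff_monomial]
  rw [Finset.sum_ite_eq' (range (i + 1)) l]
  split_ifs with h
  · rfl
  · rw [Finset.mem_range, not_lt] at h
    rw [Nat.choose_eq_zero_of_lt (by omega)]
    simp

theorem ch1 (n k : ℕ) :
    (n.choose (k + 1) : ℂ) * ((k : ℂ) + 1) = (n.choose k : ℂ) * ((n : ℂ) - k) := by
  by_cases h : k ≤ n
  · have := Nat.choose_succ_right_eq n k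
    have h2 : ((n.choose (k + 1) * (k + 1) : ℕ) : ℂ) = ((n.choose k * (n - k) : ℕ) : ℂ) := by
      rw [this]
    push_cast [Nat.cast_sub h] at h2
    exact h2
  · rw [Nat.choose_eq_zero_of_lt (by omega), Nat.choose_eq_zero_of_lt (by omega)]
    simp

theorem ch2 (n k : ℕ) :
    (n.choose k : ℂ) * ((n : ℂ) + 1) = ((n + 1).choose k : ℂ) * ((n : ℂ) + 1 - k) := by
  by_cases h : k ≤ n + 1
  · have := Nat.choose_mul_succ_eq n k
    have h2 : ((n.choose k * (n + 1) : ℕ) : ℂ) = (((n + 1).choose k * (n + 1 - k) : ℕ) : ℂ) := by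
      rw [this]
    push_cast [Nat.cast_sub h] at h2
    exact h2
  · rw [Nat.choose_eq_zero_of_lt (by omega), Nat.choose_eq_zero_of_lt (by omega)]
    simp

theorem ch3 (n k : ℕ) :
    ((n + 1).choose (k + 1) : ℂ) * ((k : ℂ) + 1) = (n.choose k : ℂ) * ((n : ℂ) + 1) := by
  have := Nat.add_one_mul_choose_eq n k
  have h2 : (((n + 1) * n.choose k : ℕ) : ℂ) = (((n + 1).choose (k + 1) * (k + 1) : ℕ) : ℂ) := by
    rw [this]
  push_cast at h2
  rw [← h2]; ring

theorem succ_ne (l : ℕ) : ((l : ℂ) + 1) ≠ 0 := by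
  exact_mod_cast Nat.succ_ne_zero l

/-- ratio of consecutive coefficients -/
theorem coeff_P_succ (i l : ℕ) :
    ((l : ℂ) + 1) ^ 2 * (P i).coeff (l + 1)
      = - (((i : ℂ) - l) * ((i : ℂ) + l + 1)) * (P i).coeff l := by
  rw [coeff_P, coeff_P]
  have h1 := ch1 i l
  have h3 := ch3 (i + l) l
  push_cast at h3
  rw [show i + (l + 1) = i + l + 1 by ring, pow_succ (-1 : ℂ) (i + l)]
  linear_combination ((-1 : ℂ) ^ (i + l) * (-1) * (((i + l + 1).choose (l + 1) : ℕ) : ℂ)
    * ((l : ℂ) + 1)) * h1 + ((-1 : ℂ) ^ (i + l) * (-1) * (i.choose l : ℂ) * ((i : ℂ) - l)) * h3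

theorem P_zero : P 0 = 1 := by
  ext l
  rw [coeff_P, coeff_one]
  rcases l with _ | l
  · simp
  · simp

theorem P_one : P 1 = C 2 * X - 1 := by
  ext l
  rw [coeff_P]
  rcases l with _ | _ | l
  · simp
  · simp [coeff_one]
  · rw [Nat.choose_eq_zero_of_lt (by omega)]
    simp [coeff_one]

theorem eval_zero_P (i : ℕ) : (P i).eval 0 = (-1) ^ i := by
  rw [← coeff_zero_eq_eval_zero, coeff_P]; simp

theorem natDegree_P_le (i : ℕ) : (P i).natDegree ≤ i := by
  rw [natDegree_le_iff_coeff_eq_zero]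
  intro l hl
  rw [coeff_P, Nat.choose_eq_zero_of_lt hl]; simp

theorem coeff_P_self_ne (i : ℕ) : (P i).coeff i ≠ 0 := by
  rw [coeff_P]
  have : ((i + i).choose i : ℂ) ≠ 0 := by
    exact_mod_cast (Nat.choose_pos (by omega)).ne'
  simp [this]

/-- the three term derivative recurrence -/
theorem derivative_P_sub (i : ℕ) :
    derivative (P (i + 2) - P i) = C (2 * (2 * (i : ℂ) + 3)) * P (i + 1) := by
  ext l
  rw [coeff_derivative, coeff_C_mul, coeff_sub]
  apply mul_left_cancel₀ (succ_ne l)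
  rw [coeff_P, coeff_P, coeff_P]
  have a1 := ch3 (i + 1) l
  have a2 := ch3 (i + l + 2) l
  have a3 := ch2 (i + l + 1) l
  have a4 := ch1 i l
  have a5 := ch2 i l
  have a6 := ch1 (i + l + 1) l
  push_cast at a1 a2 a3 a4 a5 a6
  rw [show i + 2 + (l + 1) = i + l + 2 + 1 by ring, show i + (l + 1) = i + l + 1 by ring,
    show i + 1 + l = i + l + 1 by ring]
  rw [show (-1 : ℂ) ^ (i + l + 2 + 1) = (-1) ^ (i + l + 1) by
    rw [show i + l + 2 + 1 = i + l + 1 + 2 by ring, pow_add]; simp]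
  rw [show i + 1 + 1 = i + 2 by ring] at a1
  rw [show i + l + 1 + 1 = i + l + 2 by ring] at a3
  set s := (-1 : ℂ) ^ (i + l + 1)
  set A := ((i + 2).choose (l + 1) : ℂ)
  set B := ((i + l + 2 + 1).choose (l + 1) : ℂ)
  set A' := (i.choose (l + 1) : ℂ)
  set B' := ((i + l + 1).choose (l + 1) : ℂ)
  set a := ((i + 1).choose l : ℂ)
  set b := ((i + l + 1).choose l : ℂ)
  set b2 := ((i + l + 2).choose l : ℂ)
  set a0 := (i.choose l : ℂ)
  have e1 : (A * ((l : ℂ) + 1)) * (B * ((l : ℂ) + 1))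
      = a * b * (((i : ℂ) + l + 3) * ((i : ℂ) + l + 2)) := by
    rw [a1, a2]
    linear_combination (- a * ((i : ℂ) + l + 3)) * a3
  have e2 : (A' * ((l : ℂ) + 1)) * (B' * ((l : ℂ) + 1))
      = a * b * (((i : ℂ) + 1 - l) * ((i : ℂ) - l)) := by
    rw [a4, a6]
    linear_combination (b * ((i : ℂ) - l)) * a5
  linear_combination s * e1 - s * e2

theorem derivative_P_one : derivative (P 1) = C 2 * P 0 := by
  rw [P_one, P_zero]; simp

theorem derivative_P_zero : derivative (P 0) = 0 := by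
  rw [P_zero]; simp

/-- expansion of the derivative -/
theorem derivative_P (i : ℕ) :
    derivative (P i)
      = ∑ j ∈ range i, C (if Odd (i - j) then 2 * (2 * (j : ℂ) + 1) else 0) * P j := by
  induction i using Nat.twoStepInduction with
  | zero => simp [derivative_P_zero]
  | one => simp [derivative_P_one]
  | more i ih _ =>
    have h := derivative_P_sub i
    rw [derivative_sub, sub_eq_iff_eq_add] at h
    rw [h, ih, sum_range_succ, sum_range_succ]
    have h1 : ¬ Odd (i + 2 - i) := by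
      rw [show i + 2 - i = 2 by omega]; decide
    have h2 : Odd (i + 2 - (i + 1)) := by
      rw [show i + 2 - (i + 1) = 1 by omega]; decide
    rw [if_neg h1, if_pos h2]
    have h3 : ∑ j ∈ range i, C (if Odd (i + 2 - j) then 2 * (2 * (j : ℂ) + 1) else 0) * P j
        = ∑ j ∈ range i, C (if Odd (i - j) then 2 * (2 * (j : ℂ) + 1) else 0) * P j := by
      refine sum_congr rfl fun j hj => ?_
      rw [Finset.mem_range] at hj
      have : Odd (i + 2 - j) ↔ Odd (i - j) := by
        rw [Nat.odd_iff, Nat.odd_iff]; omega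
      by_cases ho : Odd (i - j)
      · rw [if_pos ho, if_pos (this.2 ho)]
      · rw [if_neg ho, if_neg (fun h => ho (this.1 h))]
    rw [h3]
    have h4 : (2 * (2 * ((i + 1 : ℕ) : ℂ) + 1)) = 2 * (2 * (i : ℂ) + 3) := by push_cast; ring
    rw [h4, map_zero, zero_mul, add_zero, add_comm]

/-- Legendre differential equation -/
theorem ode (i : ℕ) :
    derivative ((X - X ^ 2) * derivative (P i)) = - C ((i : ℂ) * ((i : ℂ) + 1)) * P i := by
  ext l
  rw [coeff_derivative, neg_mul, coeff_neg, coeff_C_mul, sub_mul, coeff_sub, coeff_X_mul,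
    coeff_derivative]
  have h := coeff_P_succ i l
  rcases l with _ | l
  · rw [coeff_X_pow_mul', if_neg (by omega)]
    push_cast at h ⊢
    linear_combination h
  · rw [show l + 1 + 1 = l + 2 by ring, coeff_X_pow_mul, coeff_derivative]
    rw [show l + 1 + 1 = l + 2 by ring] at h
    push_cast at h ⊢
    linear_combination h

/-- integral over the unit interval -/
noncomputable def J (p : ℂ[X]) : ℂ := ∫ s in (0 : ℝ)..1, p.eval (s : ℂ)

theorem cont_eval (p : ℂ[X]) : Continuous fun s : ℝ => p.eval (s : ℂ) :=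
  p.continuous.comp Complex.continuous_ofReal

theorem J_add (p q : ℂ[X]) : J (p + q) = J p + J q := by
  unfold J
  simp only [eval_add]
  exact intervalIntegral.integral_add ((cont_eval p).intervalIntegrable _ _)
    ((cont_eval q).intervalIntegrable _ _)

theorem J_C_mul (c : ℂ) (p : ℂ[X]) : J (C c * p) = c * J p := by
  unfold J
  simp only [eval_mul, eval_C]
  exact intervalIntegral.integral_const_mul c _

theorem J_zero : J 0 = 0 := by simp [J]

theorem J_neg (p : ℂ[X]) : J (-p) = - J p := by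
  unfold J
  simp only [eval_neg]
  exact intervalIntegral.integral_neg

theorem J_sub (p q : ℂ[X]) : J (p - q) = J p - J q := by
  rw [sub_eq_add_neg, J_add, J_neg, sub_eq_add_neg]

theorem J_sum {ι : Type*} (s : Finset ι) (f : ι → ℂ[X]) :
    J (∑ i ∈ s, f i) = ∑ i ∈ s, J (f i) := by
  classical
  induction s using Finset.induction_on with
  | empty => simp [J_zero]
  | insert a s ha ih => rw [sum_insert ha, sum_insert ha, J_add, ih]

theorem integral_derivative (p : ℂ[X]) (a b : ℝ) :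
    ∫ s in a..b, (derivative p).eval (s : ℂ) = p.eval (b : ℂ) - p.eval (a : ℂ) := by
  refine intervalIntegral.integral_eq_sub_of_hasDerivAt (f := fun s : ℝ => p.eval (s : ℂ))
    (fun s _ => ?_) ((cont_eval _).intervalIntegrable _ _)
  exact (p.hasDerivAt (s : ℂ)).comp_ofReal

theorem J_derivative (p : ℂ[X]) : J (derivative p) = p.eval 1 - p.eval 0 := by
  have := integral_derivative p 0 1
  simpa [J] using this

theorem J_one : J 1 = 1 := by simp [J]

theorem J_P_mul_ne {i j : ℕ} (h : i ≠ j) : J (P i * P j) = 0 := by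
  have key : derivative ((X - X ^ 2) * (derivative (P i) * P j - P i * derivative (P j)))
      = C ((j : ℂ) * ((j : ℂ) + 1) - (i : ℂ) * ((i : ℂ) + 1)) * (P i * P j) := by
    have hi := ode i
    have hj := ode j
    have e : (X - X ^ 2) * (derivative (P i) * P j - P i * derivative (P j))
        = ((X - X ^ 2) * derivative (P i)) * P j - P i * ((X - X ^ 2) * derivative (P j)) := by
      ring
    rw [e, derivative_sub, derivative_mul (f := (X - X ^ 2) * derivative (P i)),
      derivative_mul (f := P i), hi, hj, map_sub]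
    ring
  have h2 := J_derivative ((X - X ^ 2) * (derivative (P i) * P j - P i * derivative (P j)))
  rw [key, J_C_mul] at h2
  simp only [eval_mul, eval_sub, eval_X, eval_pow] at h2
  have h3 : ((j : ℂ) * ((j : ℂ) + 1) - (i : ℂ) * ((i : ℂ) + 1)) ≠ 0 := by
    have e : ((j : ℂ) * ((j : ℂ) + 1) - (i : ℂ) * ((i : ℂ) + 1))
        = ((j : ℂ) - i) * (((i + j : ℕ) : ℂ) + 1) := by push_cast; ring
    rw [e]
    refine mul_ne_zero (sub_ne_zero.2 ?_) (succ_ne _)
    exact_mod_cast h.symm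
  have h4 : ((j : ℂ) * ((j : ℂ) + 1) - (i : ℂ) * ((i : ℂ) + 1)) * J (P i * P j) = 0 := by
    rw [h2]; ring
  exact (mul_eq_zero.1 h4).resolve_left h3

theorem eval_one_P_sub (i : ℕ) : (P (i + 2) - P i).eval 1 = 0 := by
  have h := J_derivative (P (i + 2) - P i)
  rw [derivative_P_sub, J_C_mul] at h
  have h0 := J_P_mul_ne (i := i + 1) (j := 0) (by omega)
  rw [P_zero, mul_one] at h0
  rw [h0, eval_sub (x := 0), eval_zero_P, eval_zero_P, pow_add] at h
  linear_combination -h

theorem eval_zero_P_sub (i : ℕ) : (P (i + 2) - P i).eval 0 = 0 := by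
  rw [eval_sub, eval_zero_P, eval_zero_P, pow_add]; ring

theorem J_P_mul_derivative {i j : ℕ} (h : j ≤ i) : J (P i * derivative (P j)) = 0 := by
  rw [derivative_P, mul_sum, J_sum]
  refine sum_eq_zero fun k hk => ?_
  rw [Finset.mem_range] at hk
  rw [mul_left_comm, J_C_mul, J_P_mul_ne (by omega), mul_zero]

theorem J_P_mul_derivative_succ (i : ℕ) :
    J (P i * derivative (P (i + 1))) = 2 * (2 * (i : ℂ) + 1) * J (P i * P i) := by
  rw [derivative_P, mul_sum, J_sum, sum_range_succ, sum_eq_zero, zero_add, mul_left_comm, J_C_mul,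
    if_pos]
  · rw [show i + 1 - i = 1 by omega]; decide
  · intro k hk
    rw [Finset.mem_range] at hk
    rw [mul_left_comm, J_C_mul, J_P_mul_ne (by omega), mul_zero]

theorem J_P_sq (i : ℕ) : (2 * (i : ℂ) + 1) * J (P i * P i) = 1 := by
  induction i with
  | zero => simp [P_zero, J_one]
  | succ i ih =>
    have h := J_derivative ((P (i + 2) - P i) * P (i + 1))
    rw [eval_mul, eval_mul, eval_one_P_sub, eval_zero_P_sub, derivative_mul, J_add,
      derivative_P_sub, mul_assoc, J_C_mul, sub_mul, J_sub,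
      J_P_mul_derivative (i := i + 2) (j := i + 1) (by omega), J_P_mul_derivative_succ] at h
    push_cast
    linear_combination (1 / 2 : ℂ) * h + ih

/-- the square root `sqrt (2 i + 1)` -/
noncomputable def sq (i : ℕ) : ℝ := √(2 * (i : ℝ) + 1)

theorem sq_pos (i : ℕ) : 0 < sq i := Real.sqrt_pos.2 (by positivity)

theorem sq_mul_self (i : ℕ) : sq i * sq i = 2 * (i : ℝ) + 1 :=
  Real.mul_self_sqrt (by positivity)

theorem sq_mul_self' (i : ℕ) : (sq i : ℂ) * (sq i : ℂ) = 2 * (i : ℂ) + 1 := by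
  exact_mod_cast sq_mul_self i

theorem sq_ne (i : ℕ) : (sq i : ℂ) ≠ 0 := by exact_mod_cast (sq_pos i).ne'

theorem sq_zero : sq 0 = 1 := by simp [sq]

/-- the orthonormal polynomials -/
noncomputable def e (i : ℕ) : ℂ[X] := C (sq i : ℂ) * P i

theorem e_zero : e 0 = 1 := by simp [e, sq_zero, P_zero]

theorem J_e_mul (i j : ℕ) : J (e i * e j) = if i = j then 1 else 0 := by
  have h : e i * e j = C ((sq i : ℂ) * (sq j : ℂ)) * (P i * P j) := by
    unfold e; rw [map_mul]; ring
  rw [h, J_C_mul]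
  split_ifs with hij
  · subst hij
    rw [sq_mul_self', J_P_sq]
  · rw [J_P_mul_ne hij, mul_zero]

theorem natDegree_e_le (i : ℕ) : (e i).natDegree ≤ i :=
  (natDegree_C_mul_le _ _).trans (natDegree_P_le i)

theorem coeff_e (i l : ℕ) : (e i).coeff l
    = (sq i : ℂ) * ((-1 : ℂ) ^ (i + l) * (i.choose l : ℂ) * ((i + l).choose l : ℂ)) := by
  rw [e, coeff_C_mul, coeff_P]

theorem coeff_e_self_ne (i : ℕ) : (e i).coeff i ≠ 0 := by
  rw [e, coeff_C_mul]; exact mul_ne_zero (sq_ne i) (coeff_P_self_ne i)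

theorem eval_zero_e (i : ℕ) : (e i).eval 0 = (-1) ^ i * (sq i : ℂ) := by
  rw [e, eval_mul, eval_C, eval_zero_P, mul_comm]

theorem conj_eval_P (i : ℕ) (s : ℝ) :
    (starRingEnd ℂ) ((P i).eval (s : ℂ)) = (P i).eval (s : ℂ) := by
  unfold P
  simp [eval_finsetSum, map_sum]

theorem conj_eval_e (i : ℕ) (s : ℝ) :
    (starRingEnd ℂ) ((e i).eval (s : ℂ)) = (e i).eval (s : ℂ) := by
  rw [e, eval_mul, eval_C, map_mul, conj_eval_P, Complex.conj_ofReal]

/-- bilinear Parseval identity -/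
theorem J_sum_mul_sum (s : Finset ℕ) (f g : ℕ → ℂ) :
    J ((∑ i ∈ s, C (f i) * e i) * (∑ i ∈ s, C (g i) * e i)) = ∑ i ∈ s, f i * g i := by
  rw [sum_mul_sum, J_sum]
  refine sum_congr rfl fun i hi => ?_
  rw [J_sum]
  have : ∀ j ∈ s, J (C (f i) * e i * (C (g j) * e j)) = if i = j then f i * g j else 0 := by
    intro j _
    rw [show C (f i) * e i * (C (g j) * e j) = C (f i * g j) * (e i * e j) by
      rw [map_mul]; ring, J_C_mul, J_e_mul]
    split_ifs <;> simp
  rw [sum_congr rfl this, Finset.sum_ite_eq, if_pos hi]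

/-- Parseval identity -/
theorem parseval (s : Finset ℕ) (g : ℕ → ℂ) :
    ∫ t in (0 : ℝ)..1, ‖(∑ i ∈ s, C (g i) * e i).eval (t : ℂ)‖ ^ 2 = ∑ i ∈ s, ‖g i‖ ^ 2 := by
  have h := J_sum_mul_sum s (fun i => (starRingEnd ℂ) (g i)) g
  have h2 : ∀ t : ℝ, ((∑ i ∈ s, C ((starRingEnd ℂ) (g i)) * e i) *
      (∑ i ∈ s, C (g i) * e i)).eval (t : ℂ)
      = ((‖(∑ i ∈ s, C (g i) * e i).eval (t : ℂ)‖ ^ 2 : ℝ) : ℂ) := by
    intro t
    have h3 : (∑ i ∈ s, C ((starRingEnd ℂ) (g i)) * e i).eval (t : ℂ)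
        = (starRingEnd ℂ) ((∑ i ∈ s, C (g i) * e i).eval (t : ℂ)) := by
      rw [eval_finsetSum, eval_finsetSum, map_sum]
      refine sum_congr rfl fun i _ => ?_
      rw [eval_mul, eval_mul, eval_C, eval_C, map_mul, conj_eval_e]
    rw [eval_mul, h3, Complex.conj_mul']
    push_cast; rfl
  unfold J at h
  simp only [h2] at h
  rw [intervalIntegral.integral_ofReal] at h
  have h4 : ∑ i ∈ s, (starRingEnd ℂ) (g i) * g i = ((∑ i ∈ s, ‖g i‖ ^ 2 : ℝ) : ℂ) := by
    push_cast
    exact sum_congr rfl fun i _ => Complex.conj_mul' _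
  rw [h4] at h
  exact_mod_cast h

/-- the coordinates of a polynomial -/
noncomputable def co (p : ℂ[X]) (i : ℕ) : ℂ := J (p * e i)

theorem co_add (p q : ℂ[X]) (i : ℕ) : co (p + q) i = co p i + co q i := by
  unfold co; rw [add_mul, J_add]

theorem co_sub (p q : ℂ[X]) (i : ℕ) : co (p - q) i = co p i - co q i := by
  unfold co; rw [sub_mul, J_sub]

theorem co_C_mul (c : ℂ) (p : ℂ[X]) (i : ℕ) : co (C c * p) i = c * co p i := by
  unfold co; rw [mul_assoc, J_C_mul]

theorem co_smul (c : ℂ) (p : ℂ[X]) (i : ℕ) : co (c • p) i = c * co p i := by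
  rw [← co_C_mul, C_mul']

theorem co_zero (i : ℕ) : co 0 i = 0 := by simp [co, J_zero]

theorem co_e (i j : ℕ) : co (e i) j = if i = j then 1 else 0 := J_e_mul i j

theorem co_sum {ι : Type*} (s : Finset ι) (f : ι → ℂ[X]) (i : ℕ) :
    co (∑ k ∈ s, f k) i = ∑ k ∈ s, co (f k) i := by
  unfold co; rw [sum_mul, J_sum]

theorem co_sum_e (s : Finset ℕ) (g : ℕ → ℂ) (j : ℕ) :
    co (∑ i ∈ s, C (g i) * e i) j = if j ∈ s then g j else 0 := by
  rw [co_sum]
  have : ∀ i ∈ s, co (C (g i) * e i) j = if i = j then g i else 0 := by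
    intro i _
    rw [co_C_mul, co_e]
    split_ifs <;> simp
  rw [sum_congr rfl this, Finset.sum_ite_eq']

theorem exists_expand (m : ℕ) : ∀ p : ℂ[X], (∀ l, m ≤ l → p.coeff l = 0) →
    ∃ g : ℕ → ℂ, p = ∑ i ∈ range m, C (g i) * e i := by
  induction m with
  | zero =>
    intro p hp
    refine ⟨fun _ => 0, ?_⟩
    ext l
    simp [hp l (Nat.zero_le l)]
  | succ m ih =>
    intro p hp
    obtain ⟨g, hg⟩ := ih (p - C (p.coeff m / (e m).coeff m) * e m) (by
      intro l hl
      rw [coeff_sub, coeff_C_mul]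
      rcases hl.eq_or_lt with rfl | hl
      · rw [div_mul_cancel₀ _ (coeff_e_self_ne _), sub_self]
      · rw [hp l hl, coeff_eq_zero_of_natDegree_lt ((natDegree_e_le m).trans_lt hl)]
        simp)
    refine ⟨fun i => if i = m then p.coeff m / (e m).coeff m else g i, ?_⟩
    beta_reduce
    rw [sum_range_succ, if_pos rfl]
    have : ∑ i ∈ range m, C (if i = m then p.coeff m / (e m).coeff m else g i) * e i
        = ∑ i ∈ range m, C (g i) * e i := by
      refine sum_congr rfl fun i hi => ?_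
      rw [Finset.mem_range] at hi
      rw [if_neg hi.ne]
    rw [this, ← hg, sub_add_cancel]

/-- expansion of a polynomial of degree below `m` -/
theorem expand {p : ℂ[X]} {m : ℕ} (h : p.natDegree < m) :
    p = ∑ i ∈ range m, C (co p i) * e i := by
  obtain ⟨g, hg⟩ := exists_expand m p
    (fun l hl => coeff_eq_zero_of_natDegree_lt (h.trans_le hl))
  have : ∀ i ∈ range m, C (co p i) * e i = C (g i) * e i := by
    intro i hi
    rw [hg, co_sum_e, if_pos hi]
  rw [sum_congr rfl this, ← hg]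

theorem co_eq_zero {p : ℂ[X]} {i : ℕ} (h : p.natDegree < i) : co p i = 0 := by
  rw [expand h, co_sum_e, if_neg (by simp)]

theorem parseval_co {p : ℂ[X]} {m : ℕ} (h : p.natDegree < m) :
    ∫ t in (0 : ℝ)..1, ‖p.eval (t : ℂ)‖ ^ 2 = ∑ i ∈ range m, ‖co p i‖ ^ 2 := by
  rw [← parseval, ← expand h]

theorem natDegree_sum_e_le (m : ℕ) (g : ℕ → ℂ) :
    (∑ i ∈ range (m + 1), C (g i) * e i).natDegree ≤ m := by
  refine natDegree_sum_le_of_forall_le _ _ fun i hi => ?_
  rw [Finset.mem_range] at hi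
  exact (natDegree_C_mul_le _ _).trans ((natDegree_e_le i).trans (by omega))

/-- the subdiagonal entries of the Volterra operator -/
noncomputable def al (i : ℕ) : ℝ := 1 / (2 * (sq i * sq (i + 1)))

theorem al_pos (i : ℕ) : 0 < al i := by
  have := sq_pos i
  have := sq_pos (i + 1)
  unfold al; positivity

theorem derivative_V_succ (i : ℕ) :
    derivative (C (al (i + 1) : ℂ) * e (i + 2) - C (al i : ℂ) * e i) = e (i + 1) := by
  have h : C (al (i + 1) : ℂ) * e (i + 2) - C (al i : ℂ) * e i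
      = C (1 / (2 * (sq (i + 1) : ℂ))) * (P (i + 2) - P i) := by
    unfold e
    rw [← mul_assoc, ← mul_assoc, ← map_mul, ← map_mul, mul_sub]
    have h1 := sq_ne i
    have h2 := sq_ne (i + 1)
    have h3 := sq_ne (i + 2)
    congr 3
    · unfold al; push_cast; field_simp
    · unfold al; push_cast; field_simp
  rw [h, derivative_C_mul, derivative_P_sub, ← mul_assoc, ← map_mul, e]
  congr 2
  have h2 := sq_ne (i + 1)
  have h4 := sq_mul_self' (i + 1)
  push_cast at h4
  field_simp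
  linear_combination -h4

theorem eval_zero_V_succ (i : ℕ) :
    (C (al (i + 1) : ℂ) * e (i + 2) - C (al i : ℂ) * e i).eval 0 = 0 := by
  rw [eval_sub, eval_mul, eval_mul, eval_C, eval_C, eval_zero_e, eval_zero_e, pow_add]
  have h1 := sq_ne i
  have h2 := sq_ne (i + 1)
  have h3 := sq_ne (i + 2)
  unfold al; push_cast; field_simp; ring

theorem V_zero_eq : C (al 0 : ℂ) * e 1 + C (1 / 2 : ℂ) * e 0 = X := by
  have h2 := sq_ne 1
  have h : (al 0 : ℂ) * (sq 1 : ℂ) = 1 / 2 := by
    unfold al; rw [sq_zero]; push_cast; field_simp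
  rw [e_zero, e, ← mul_assoc, ← map_mul, h, P_one, mul_sub, ← mul_assoc, ← map_mul]
  norm_num

/-- expansion of the derivative of `e i` -/
theorem derivative_e (i : ℕ) :
    derivative (e i) = ∑ j ∈ range i,
      C (if Odd (i - j) then ((2 * (sq i * sq j) : ℝ) : ℂ) else 0) * e j := by
  rw [e, derivative_C_mul, derivative_P, mul_sum]
  refine sum_congr rfl fun j _ => ?_
  rw [e, ← mul_assoc, ← mul_assoc, ← map_mul, ← map_mul]
  congr 2
  have h4 := sq_mul_self' j
  by_cases ho : Odd (i - j)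
  · rw [if_pos ho, if_pos ho]
    push_cast
    linear_combination (-2 * (sq i : ℂ)) * h4
  · rw [if_neg ho, if_neg ho]; simp

theorem norm_coeff_P_le (i l : ℕ) : ‖(P i).coeff l‖ ≤ (i.choose l : ℝ) * 4 ^ i := by
  rw [coeff_P, norm_mul, norm_mul, norm_pow, norm_neg, norm_one, one_pow, one_mul,
    Complex.norm_natCast, Complex.norm_natCast]
  by_cases h : l ≤ i
  · refine mul_le_mul_of_nonneg_left ?_ (Nat.cast_nonneg _)
    have h1 : (i + l).choose l ≤ 2 ^ (i + l) := Nat.choose_le_two_pow _ _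
    have h2 : 2 ^ (i + l) ≤ 4 ^ i := by
      rw [show 4 ^ i = 2 ^ (2 * i) by rw [pow_mul]; norm_num]
      exact Nat.pow_le_pow_right (by norm_num) (by omega)
    exact_mod_cast h1.trans h2
  · rw [Nat.choose_eq_zero_of_lt (by omega)]; simp

/-- the tail of the coefficients -/
theorem coeff_tail (i l : ℕ) (s : Finset ℕ) (hs : ∀ l' ∈ s, l ≤ l') :
    ∑ l' ∈ s, ‖(P i).coeff l'‖ ≤ (1 / 7) ^ l * 32 ^ i := by
  have h1 : ∀ l' ∈ s, ‖(P i).coeff l'‖ ≤ (1 / 7) ^ l * 4 ^ i * ((i.choose l' : ℝ) * 7 ^ l') := by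
    intro l' hl
    refine (norm_coeff_P_le i l').trans ?_
    have h7 : (1 : ℝ) ≤ (1 / 7) ^ l * 7 ^ l' := by
      obtain ⟨c, rfl⟩ := Nat.exists_eq_add_of_le (hs l' hl)
      rw [pow_add, ← mul_assoc, ← mul_pow]
      norm_num
      exact one_le_pow₀ (by norm_num)
    have h0 : (0 : ℝ) ≤ (i.choose l' : ℝ) * 4 ^ i := by positivity
    calc _ ≤ (i.choose l' : ℝ) * 4 ^ i * ((1 / 7) ^ l * 7 ^ l') := le_mul_of_one_le_right h0 h7
      _ = _ := by ring
  refine (sum_le_sum h1).trans ?_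
  rw [← mul_sum]
  have h2 : ∑ l' ∈ s, (i.choose l' : ℝ) * 7 ^ l' ≤ 8 ^ i := by
    classical
    have h3 : ∑ l' ∈ s, (i.choose l' : ℝ) * 7 ^ l'
        = ∑ l' ∈ s.filter (· ∈ range (i + 1)), (i.choose l' : ℝ) * 7 ^ l' := by
      rw [sum_filter]
      refine sum_congr rfl fun l' _ => ?_
      by_cases hl : l' ∈ range (i + 1)
      · rw [if_pos hl]
      · rw [if_neg hl]
        rw [Finset.mem_range] at hl
        rw [Nat.choose_eq_zero_of_lt (by omega)]; simp
    rw [h3]
    have h4 : (8 : ℝ) ^ i = ∑ l' ∈ range (i + 1), (i.choose l' : ℝ) * 7 ^ l' := by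
      rw [show (8 : ℝ) = 7 + 1 by norm_num, add_pow]
      exact sum_congr rfl fun l' _ => by ring
    rw [h4]
    exact sum_le_sum_of_subset_of_nonneg (fun x hx => (mem_filter.1 hx).2)
      (fun _ _ _ => by positivity)
  calc _ ≤ (1 / 7) ^ l * 4 ^ i * (8 : ℝ) ^ i := mul_le_mul_of_nonneg_left h2 (by positivity)
    _ = _ := by rw [mul_assoc, ← mul_pow]; norm_num

end IS46
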